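import Pool.Agent.TH293.APP.Main

/-!
# `p`-adic strong four exponentials: matrices `(log x, log (1 - x); t log x, t log (1 - x))`

Let `𝓛` be the space of the linear combinations, with algebraic coefficients, of `1` and of values of
the Iwasawa logarithm at algebraic numbers.  For a rational number `x`, `0 < x < 1 / 2`, such that `x`
and `1 - x` are `p`-adic units, `log_p x` and `log_p (1 - x)` are linearly independent over the
algebraic numbers.  Hence the conjecture says that for no transcendental `t` both numbers `t log_p x`
and `t log_p (1 - x)` lie in `𝓛`.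

We prove that for every transcendental `t` this happens for at most one `x`, with the following
exception: it happens exactly for `x = 1/3, 1/4, 1/9` (i.e. if `t log_p 2` and `t log_p 3` lie in `𝓛`,
`p ≠ 2, 3`).  More precisely, this holds with `𝓛` replaced by any rational subspace `V` of `𝓛`.  So
one failure of the conjecture for a matrix of this shape excludes all other failures with the same
`t`, except for the three matrices made from `log_p 2` and `log_p 3`.

The proof (`Pool.Agent.TH293.APP`) combines the `p`-adic strong six exponentials theorem and Brumer's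
theorem (both proved in the starting files) with the determination of the solutions of `x + y = 1` in
groups of positive rational numbers of rank two whose elements are, up to roots, monomials in another
solution (`Pool.Agent.TH293.AP`).
-/

set_option autoImplicit false

namespace Pool.Agent.Results.MP_dd0d16_nt.AdditivePairs

/-- `L` is the Iwasawa `p`-adic logarithm on the algebraic closure of `ℚ_p`. -/
def IsIwasawaLog (p : ℕ) [Fact p.Prime] (L : PadicAlgCl p → PadicAlgCl p) : Prop :=
  (∀ x y : PadicAlgCl p, x ≠ 0 → y ≠ 0 → L (x * y) = L x + L y) ∧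
  L ((p : ℕ) : PadicAlgCl p) = 0 ∧
  ∀ z : PadicAlgCl p, ‖z‖ < 1 →
    HasSum (fun n : ℕ => (-1 : PadicAlgCl p) ^ n * z ^ (n + 1) / ((n : PadicAlgCl p) + 1))
      (L (1 + z))

/-- The linear combinations with algebraic coefficients of `1` and of the values of `L` at nonzero
algebraic numbers. -/
noncomputable def LogForms (p : ℕ) [Fact p.Prime] (L : PadicAlgCl p → PadicAlgCl p) :
    Submodule (algebraicClosure ℚ (PadicAlgCl p)) (PadicAlgCl p) :=
  Submodule.span (algebraicClosure ℚ (PadicAlgCl p))
    ({1} ∪ {z | ∃ α : PadicAlgCl p, α ≠ 0 ∧ IsAlgebraic ℚ α ∧ z = L α})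

/-- The rational numbers `x` in `(0, 1/2)` for which `x` and `1 - x` are `p`-adic units and
`t log_p x` and `t log_p (1 - x)` lie in `V`. -/
def Pairs (p : ℕ) [Fact p.Prime] (L : PadicAlgCl p → PadicAlgCl p)
    (V : Submodule ℚ (PadicAlgCl p)) (t : PadicAlgCl p) : Set ℚ :=
  {x : ℚ | 0 < x ∧ x < 1 / 2 ∧ padicValRat p x = 0 ∧ padicValRat p (1 - x) = 0 ∧
    t * L (x : PadicAlgCl p) ∈ V ∧ t * L ((1 - x : ℚ) : PadicAlgCl p) ∈ V}

/-- **Main result.**  Let `t` be transcendental and let `V` be a rational subspace of the space of
linear forms in `1` and `p`-adic logarithms of algebraic numbers.  Then there is at most one rational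
number `x` in `(0, 1/2)` such that `x`, `1 - x` are `p`-adic units and `t log_p x`, `t log_p (1 - x)`
lie in `V`, or the set of all such `x` is `{1/3, 1/4, 1/9}`. -/
theorem result (p : ℕ) [Fact p.Prime] (L : PadicAlgCl p → PadicAlgCl p) (hL : IsIwasawaLog p L)
    (t : PadicAlgCl p) (ht : Transcendental ℚ t) (V : Submodule ℚ (PadicAlgCl p))
    (hV : ∀ z ∈ V, z ∈ LogForms p L) :
    (Pairs p L V t).Subsingleton ∨ Pairs p L V t = {1 / 3, 1 / 4, 1 / 9} := by
  have hL' : Pool.Agent.W245.PB.IsIwasawaLog p L := ⟨hL.1, hL.2.1, hL.2.2⟩
  exact Pool.Agent.TH293.APP.dichotomy hL' ht V hV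

end Pool.Agent.Results.MP_dd0d16_nt.AdditivePairs
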