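import Pool.Agent.Results.MP_dd0d16_nt.TuplesPowerSaving
import Pool.Agent.V11300.PA.Classes

/-!
# `p`-adic strong four exponentials for ALL tuples of integers in the residue classes modulo `q ^ f` of almost every
`α ∈ ℤ_q ^ k`

Let `k ≥ 1`, and let there be given for `s = 0, 1, 2, …` a prime `p_s`, the Iwasawa logarithm `L_s` on the algebraic closure
of `ℚ_{p_s}`, and sequences `(K_{s,f})_f` of number fields of degree at most `d` in it and `(V_{s,f})_f` of `K_{s,f}`-spaces
of dimension at most `m`; let `q` be a prime number (one of the `p_s` or not) and `κ > 0`. For every `α ∈ ℤ_q ^ k` outside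
a set of Hausdorff dimension at most `κ (k - c)`, all `s` and all large `f`, ALL tuples `x = (x_1, ..., x_k)` of integers
`1 ≤ x_i ≤ q ^ (κ f)` with `x_i ≡ α_i mod q ^ f` for all `i` have the following property: the logarithms `L_s(x_i)` are
`K`-linearly independent modulo `V`, and every `2 × 2` matrix over `V + K L_s(x_1) + … + K L_s(x_k)` which has an entry
outside `V`, `K`-linearly independent rows and `K`-linearly independent columns has a nonzero determinant
(`K = K_{s,f}`, `V = V_{s,f}`). The number `c > 0` depends on `k`, `d`, `m` only. (The space `ℤ_q ^ k` has dimension `k`;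
for `1 < κ < k / (k - c)` each class contains many tuples.)

The proof combines the power saving of the starting result `TuplesPowerSaving` with a covering argument in `ℤ_q ^ k`.
-/

set_option autoImplicit false

open Module MeasureTheory

namespace Pool.Agent.Results.MP_dd0d16_nt.TuplesInResidueClasses

/-- `L` is the Iwasawa `p`-adic logarithm on the algebraic closure of `ℚ_p`. -/
def IsIwasawaLog (p : ℕ) [Fact p.Prime] (L : PadicAlgCl p → PadicAlgCl p) : Prop :=
  (∀ x y : PadicAlgCl p, x ≠ 0 → y ≠ 0 → L (x * y) = L x + L y) ∧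
  L ((p : ℕ) : PadicAlgCl p) = 0 ∧
  ∀ z : PadicAlgCl p, ‖z‖ < 1 →
    HasSum (fun n : ℕ => (-1 : PadicAlgCl p) ^ n * z ^ (n + 1) / ((n : PadicAlgCl p) + 1))
      (L (1 + z))

/-- The `l i` are linearly independent modulo `V`, and every `2 × 2` matrix over `V + span l` which has an entry
outside `V`, `K`-linearly independent rows and `K`-linearly independent columns has determinant `≠ 0`. -/
def StrongFour {K A : Type} [Field K] [Field A] [Algebra K A] (V : Submodule K A) {k : ℕ} (l : Fin k → A) : Prop :=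
  finrank K (V ⊔ Submodule.span K (Set.range l) : Submodule K A) = finrank K V + k ∧
    ∀ M : Matrix (Fin 2) (Fin 2) A, (∀ i j, M i j ∈ V ⊔ Submodule.span K (Set.range l)) → (∃ i j, M i j ∉ V) →
      LinearIndependent K (fun i : Fin 2 => fun j : Fin 2 => M i j) →
      LinearIndependent K (fun j : Fin 2 => fun i : Fin 2 => M i j) → M.det ≠ 0

theorem result (k d m : ℕ) (hk : 1 ≤ k) :
    ∃ c : ℝ, 0 < c ∧ c ≤ k ∧ ∀ (p : ℕ → ℕ) [∀ s, Fact (p s).Prime] (L : ∀ s, PadicAlgCl (p s) → PadicAlgCl (p s)),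
      (∀ s, IsIwasawaLog (p s) (L s)) →
      ∀ (K : ∀ s, ℕ → IntermediateField ℚ (PadicAlgCl (p s))) (V : ∀ s f, Submodule (K s f) (PadicAlgCl (p s))),
      (∀ s f, FiniteDimensional ℚ (K s f) ∧ finrank ℚ (K s f) ≤ d) →
      (∀ s f, Module.Finite (K s f) (V s f) ∧ finrank (K s f) (V s f) ≤ m) →
      ∀ (q : ℕ) [Fact q.Prime] (κ : ℝ), 0 < κ →
      ∃ E : Set (Fin k → ℤ_[q]), dimH E ≤ ENNReal.ofReal (κ * ((k : ℝ) - c)) ∧
        ∀ α : Fin k → ℤ_[q], α ∉ E → ∀ s : ℕ, ∃ f₀ : ℕ, ∀ f : ℕ, f₀ ≤ f → ∀ x : Fin k → ℕ,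
          (∀ i, 1 ≤ x i ∧ (x i : ℝ) ≤ (q : ℝ) ^ (κ * f)) → (∀ i, (q : ℤ_[q]) ^ f ∣ (x i : ℤ_[q]) - α i) →
          StrongFour (V s f) (fun i => L s (x i : PadicAlgCl (p s))) := by
  obtain ⟨c, hc, C, hC⟩ := TuplesPowerSaving.result k d m
  have hk1 : (1 : ℝ) ≤ k := by exact_mod_cast hk
  refine ⟨min c k, lt_min hc (by linarith), min_le_right _ _, fun p _ L hL K V hK hV q _ κ hκ => ?_⟩
  obtain ⟨E, hE, h⟩ := Pool.Agent.V11300.PA.classes_nat q (ι := Fin k) (s := (k : ℝ) - min c k) (κ := κ)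
    (by linarith [min_le_right c (k : ℝ)]) hκ
    (fun s f => {x : Fin k → ℕ | (∀ i, 1 ≤ x i) ∧ ¬ StrongFour (V s f) (fun i => L s (x i : PadicAlgCl (p s)))})
    (fun s => |C| * p s) (by
      intro s f T hT
      obtain ⟨B, hB, hgood⟩ := hC (p s) (L s) (hL s) (K s f) (hK s f).1 (hK s f).2 (V s f) (hV s f).1 (hV s f).2 T hT
      have hT1 : (1 : ℝ) ≤ T := by exact_mod_cast hT
      have hsub : {x : Fin k → ℕ | x ∈ {x : Fin k → ℕ | (∀ i, 1 ≤ x i) ∧
          ¬ StrongFour (V s f) (fun i => L s (x i : PadicAlgCl (p s)))} ∧ ∀ i, x i ≤ T} ⊆ (B : Set (Fin k → ℕ)) := by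
        rintro x ⟨⟨h1, h2⟩, h3⟩
        by_contra hx
        exact h2 (hgood x (fun i => ⟨h1 i, h3 i⟩) hx)
      refine ⟨(Finset.finite_toSet B).subset hsub, ?_⟩
      have h4 := Set.ncard_le_ncard hsub (Finset.finite_toSet B)
      rw [Set.ncard_coe_finset] at h4
      refine ((Nat.cast_le (α := ℝ)).2 h4).trans (hB.trans ?_)
      refine mul_le_mul (mul_le_mul_of_nonneg_right (le_abs_self C) (Nat.cast_nonneg _)) ?_ (by positivity) (by positivity)
      exact Real.rpow_le_rpow_of_exponent_le hT1 (by linarith [min_le_left c (k : ℝ)]))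
  refine ⟨E, hE, fun α hα s => ?_⟩
  obtain ⟨f₀, hf⟩ := h α hα s
  refine ⟨f₀, fun f hf1 x hx hd => ?_⟩
  by_contra hcon
  exact hf f hf1 x (fun i => (hx i).2) hd ⟨fun i => (hx i).1, hcon⟩

end Pool.Agent.Results.MP_dd0d16_nt.TuplesInResidueClasses
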