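import Pool.Agent.Results.MP_dd0d16_nt.TuplesPowerSaving
import Pool.Agent.V11326.WT
import Pool.Agent.V11326.WI

/-!
# `p`-adic strong four exponentials for ALL tuples of integers in boxes around the points `v_n α`, for almost all `α`

Let `k ≥ 1`, and let there be given for `s = 0, 1, 2, …` a prime `p_s`, the Iwasawa logarithm `L_s` on the algebraic closure
of `ℚ_{p_s}`, and sequences `(K_{s,n})_n` of number fields of degree at most `d` in it and `(V_{s,n})_n` of `K_{s,n}`-spaces
of dimension at most `m`. For every real vector `α ∈ ℝ ^ k` outside a set of small Hausdorff dimension (and of measure zero,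
if the side `v_n ^ η` of the boxes is a small power of `v_n`), all `s` and all large `n`, ALL tuples `x = (x_1, ..., x_k)` of
positive integers with `|x_i - α_i v_n| ≤ v_n ^ η` for all `i` have the following property: the logarithms `L_s(x_i)` are
`K`-linearly independent modulo `V`, and every `2 × 2` matrix over `V + K L_s(x_1) + … + K L_s(x_k)` which has an entry
outside `V`, `K`-linearly independent rows and `K`-linearly independent columns has a nonzero determinant
(`K = K_{s,n}`, `V = V_{s,n}`). The bound for the dimension depends on `k`, `d`, `m` only.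

The proof combines the power saving of the starting result `TuplesPowerSaving` with a covering argument in `ℝ ^ k`.
-/

set_option autoImplicit false

open Module MeasureTheory

namespace Pool.Agent.Results.MP_dd0d16_nt.TuplesInWindows

/-- The exponent of convergence of the sequence `v` is at most `τ`: the sum of the `v_n ^ (-q)` converges for all
`q > τ`. -/
def ExpLe (v : ℕ → ℝ) (τ : ℝ) : Prop := ∀ q : ℝ, τ < q → Summable fun n => (v n) ^ (-q)

/-- `L` is the Iwasawa `p`-adic logarithm on the algebraic closure of `ℚ_p`. -/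
def IsIwasawaLog (p : ℕ) [Fact p.Prime] (L : PadicAlgCl p → PadicAlgCl p) : Prop :=
  (∀ x y : PadicAlgCl p, x ≠ 0 → y ≠ 0 → L (x * y) = L x + L y) ∧
  L ((p : ℕ) : PadicAlgCl p) = 0 ∧
  ∀ z : PadicAlgCl p, ‖z‖ < 1 →
    HasSum (fun n : ℕ => (-1 : PadicAlgCl p) ^ n * z ^ (n + 1) / ((n : PadicAlgCl p) + 1))
      (L (1 + z))

/-- The `l i` are linearly independent modulo `V`, and every `2 × 2` matrix over `V + span l` which has an entry
outside `V`, `K`-linearly independent rows and `K`-linearly independent columns has determinant `≠ 0`. -/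
def StrongFour {K A : Type} [Field K] [Field A] [Algebra K A] (V : Submodule K A) {k : ℕ} (l : Fin k → A) : Prop :=
  finrank K (V ⊔ Submodule.span K (Set.range l) : Submodule K A) = finrank K V + k ∧
    ∀ M : Matrix (Fin 2) (Fin 2) A, (∀ i j, M i j ∈ V ⊔ Submodule.span K (Set.range l)) → (∃ i j, M i j ∉ V) →
      LinearIndependent K (fun i : Fin 2 => fun j : Fin 2 => M i j) →
      LinearIndependent K (fun j : Fin 2 => fun i : Fin 2 => M i j) → M.det ≠ 0

theorem result (k d m : ℕ) (hk : 1 ≤ k) :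
    ∃ c : ℝ, 0 < c ∧ c ≤ k ∧ ∀ (p : ℕ → ℕ) [∀ s, Fact (p s).Prime] (L : ∀ s, PadicAlgCl (p s) → PadicAlgCl (p s)),
      (∀ s, IsIwasawaLog (p s) (L s)) →
      ∀ (K : ∀ s, ℕ → IntermediateField ℚ (PadicAlgCl (p s))) (V : ∀ s n, Submodule (K s n) (PadicAlgCl (p s))),
      (∀ s n, FiniteDimensional ℚ (K s n) ∧ finrank ℚ (K s n) ≤ d) →
      (∀ s n, Module.Finite (K s n) (V s n) ∧ finrank (K s n) (V s n) ≤ m) →
      ∀ (v : ℕ → ℝ) (τ η : ℝ), (∀ n, 1 ≤ v n) → 0 ≤ τ → ExpLe v τ → η < 1 →
      ∃ F : Set (Fin k → ℝ), dimH F ≤ ENNReal.ofReal (((k : ℝ) - c + τ) / (1 - η)) ∧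
        (τ + k * η < c → volume F = 0) ∧
        ∀ α : Fin k → ℝ, α ∉ F → ∀ s : ℕ, ∃ n₀ : ℕ, ∀ n : ℕ, n₀ ≤ n → ∀ x : Fin k → ℕ, (∀ i, 1 ≤ x i) →
          (∀ i, |(x i : ℝ) - α i * v n| ≤ (v n) ^ η) →
          StrongFour (V s n) (fun i => L s (x i : PadicAlgCl (p s))) := by
  obtain ⟨c, hc, C, hC⟩ := TuplesPowerSaving.result k d m
  have hk1 : (1 : ℝ) ≤ k := by exact_mod_cast hk
  refine ⟨min c k, lt_min hc (by linarith), min_le_right _ _, fun p _ L hL K V hK hV v τ η hv hτ hvτ hη => ?_⟩
  obtain ⟨F, hF, h⟩ := Pool.Agent.V11326.WT.tuple_windows (k := k) (c := min c k) (min_le_right _ _)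
    (fun s n => {x : Fin k → ℕ | (∀ i, 1 ≤ x i) ∧ ¬ StrongFour (V s n) (fun i => L s (x i : PadicAlgCl (p s)))})
    (fun s => |C| * p s) (by
      intro s n T hT
      obtain ⟨B, hB, hgood⟩ := hC (p s) (L s) (hL s) (K s n) (hK s n).1 (hK s n).2 (V s n) (hV s n).1 (hV s n).2 T hT
      have hT1 : (1 : ℝ) ≤ T := by exact_mod_cast hT
      have hsub : {x : Fin k → ℕ | x ∈ {x : Fin k → ℕ | (∀ i, 1 ≤ x i) ∧
          ¬ StrongFour (V s n) (fun i => L s (x i : PadicAlgCl (p s)))} ∧ ∀ i, x i ≤ T} ⊆ (B : Set (Fin k → ℕ)) := by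
        rintro x ⟨⟨h1, h2⟩, h3⟩
        by_contra hx
        exact h2 (hgood x (fun i => ⟨h1 i, h3 i⟩) hx)
      refine ⟨(Finset.finite_toSet B).subset hsub, ?_⟩
      have h4 := Set.ncard_le_ncard hsub (Finset.finite_toSet B)
      rw [Set.ncard_coe_finset] at h4
      refine ((Nat.cast_le (α := ℝ)).2 h4).trans (hB.trans ?_)
      refine mul_le_mul (mul_le_mul_of_nonneg_right (le_abs_self C) (Nat.cast_nonneg _)) ?_ (by positivity) (by positivity)
      exact Real.rpow_le_rpow_of_exponent_le hT1 (by linarith [min_le_left c (k : ℝ)]))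
    hv hτ hvτ hη
  refine ⟨F, hF, fun hcη => ?_, fun α hα s => ?_⟩
  · have hcard : (Fintype.card (Fin k) : ℝ) = k := by rw [Fintype.card_fin]
    exact Pool.Agent.V11326.WI.null (c := min c k) (by rw [hcard]; exact min_le_right _ _) hτ hη (by rw [hcard]; exact hF)
      (by rw [hcard]; exact hcη)
  · obtain ⟨n₀, hn⟩ := h α hα s
    refine ⟨n₀, fun n hn1 x hx2 hx => ?_⟩
    by_contra hcon
    exact hn n hn1 x hx ⟨hx2, hcon⟩

end Pool.Agent.Results.MP_dd0d16_nt.TuplesInWindows
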