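import Pool.Agent.Results.MP_dd0d16_nt.TuplesPowerSaving
import Pool.Agent.H107.MetricFam
import Pool.Agent.H2N.NearSpace

/-!
# `p`-adic strong four exponentials for ALL tuples of integers near almost every direction

Let `k ≥ 1`, and let there be given for `s = 0, 1, 2, …` a prime `p_s`, the Iwasawa logarithm `L_s` on the algebraic closure
of `ℚ_{p_s}`, a number field `K_s` of degree at most `d` in it and a `K_s`-space `V_s` of dimension at most `m`. There is
`c > 0`, which depends on `k`, `d`, `m` only, such that for almost every direction `z ∈ ℝ ^ k`, all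
`σ > (k + 1 - c) / k` and all `s`, ALL `(k + 1)`-tuples `x` of positive integers with
`|x_i / x_{k + 1} - z_i| ≤ (max x_j) ^ (-σ)` for `i ≤ k`, except for finitely many, have the following property: the
logarithms `L_s(x_i)` are `K_s`-linearly independent modulo `V_s`, and every `2 × 2` matrix over
`V_s + K_s L_s(x_1) + … + K_s L_s(x_{k+1})` which has an entry outside `V_s`, `K_s`-linearly independent rows and
`K_s`-linearly independent columns has a nonzero determinant. Since `c > 0`, exponents `σ < (k + 1) / k` are allowed: by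
Dirichlet's theorem there are infinitely many such tuples near every `z` with positive coordinates.
-/

set_option autoImplicit false

open Module MeasureTheory

namespace Pool.Agent.Results.MP_dd0d16_nt.TuplesNearDirections

open TuplesPowerSaving (IsIwasawaLog StrongFour)

/-- the largest entry of the tuple -/
def top {n : ℕ} (x : Fin n → ℕ) : ℕ := Finset.univ.sup x

theorem le_top {n : ℕ} (x : Fin n → ℕ) (j : Fin n) : x j ≤ top x := Finset.le_sup (f := x) (Finset.mem_univ j)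

/-- the height -/
noncomputable def ht {n : ℕ} (x : Fin n → ℕ) : ℝ := max 1 (top x : ℝ)

theorem one_le_ht {n : ℕ} (x : Fin n → ℕ) : 1 ≤ ht x := le_max_left _ _

theorem ht_eq {n : ℕ} {x : Fin (n + 1) → ℕ} (hx : ∀ i, 1 ≤ x i) : ht x = top x := by
  refine max_eq_right ?_
  have h1 := le_top x 0
  have h2 := hx 0
  exact_mod_cast (by omega : 1 ≤ top x)

/-- **Theorem.** Let `k ≥ 1`, `d`, `m ≥ 0`; `top x` is the largest entry of `x`. There is `c` with `0 < c ≤ k + 1` such that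
for all sequences `(p_s, L_s, K_s, V_s)` of primes, Iwasawa logarithms, number fields of degree at most `d` in the algebraic
closure of `ℚ_{p_s}` and `K_s`-subspaces of it of dimension at most `m`:
(1) For almost every `z ∈ ℝ ^ k`, all `σ > (k + 1 - c) / k` and all `s`, `StrongFour` holds for `V_s` and the logarithms
`L_s(x_i)` for all but finitely many `(k + 1)`-tuples `x` of positive integers with
`|x_i / x_{k + 1} - z_i| ≤ (top x) ^ (-σ)` for `i ≤ k`.
(2) For every map `φ` from the tuples to a metric space `M` and `σ > 0` there is a set `E ⊆ M` of Hausdorff dimension at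
most `(k + 1 - c) / σ` such that for all `z` outside `E` and all `s` the same holds for all but finitely many tuples with
`dist (φ x, z) ≤ (top x) ^ (-σ)`. -/
theorem result (k d m : ℕ) (hk : 1 ≤ k) :
    ∃ c : ℝ, 0 < c ∧ c ≤ k + 1 ∧
      ∀ (p : ℕ → ℕ) [∀ s, Fact (p s).Prime] (L : ∀ s, PadicAlgCl (p s) → PadicAlgCl (p s)),
      (∀ s, IsIwasawaLog (p s) (L s)) →
      ∀ (K : ∀ s, IntermediateField ℚ (PadicAlgCl (p s))) (V : ∀ s, Submodule (K s) (PadicAlgCl (p s))),
      (∀ s, FiniteDimensional ℚ (K s) ∧ finrank ℚ (K s) ≤ d) →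
      (∀ s, Module.Finite (K s) (V s) ∧ finrank (K s) (V s) ≤ m) →
      (∀ᵐ z : Fin k → ℝ, ∀ σ : ℝ, ((k : ℝ) + 1 - c) / k < σ → ∀ s : ℕ,
        {x : Fin (k + 1) → ℕ | (∀ i, 1 ≤ x i) ∧
          (∀ i : Fin k, |(x i.castSucc : ℝ) / x (Fin.last k) - z i| ≤ (top x : ℝ) ^ (-σ)) ∧
          ¬ StrongFour (V s) (fun i => L s (x i : PadicAlgCl (p s)))}.Finite) ∧
      ∀ (M : Type) [MetricSpace M] (φ : (Fin (k + 1) → ℕ) → M) (σ : ℝ), 0 < σ → ∃ E : Set M,
        dimH E ≤ ENNReal.ofReal (((k : ℝ) + 1 - c) / σ) ∧ ∀ z : M, z ∉ E → ∀ s : ℕ,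
          {x : Fin (k + 1) → ℕ | (∀ i, 1 ≤ x i) ∧ dist (φ x) z ≤ (top x : ℝ) ^ (-σ) ∧
            ¬ StrongFour (V s) (fun i => L s (x i : PadicAlgCl (p s)))}.Finite := by
  obtain ⟨c, hc, C, hC⟩ := TuplesPowerSaving.result (k + 1) d m
  have hk0 : (0 : ℝ) < k := by exact_mod_cast hk
  have hs0 : 0 ≤ (k : ℝ) + 1 - min c ((k : ℝ) + 1) := sub_nonneg.2 (min_le_right _ _)
  have hfr : Module.finrank ℝ (Fin k → ℝ) = k := by
    rw [Module.finrank_pi, Fintype.card_fin]
  refine ⟨min c ((k : ℝ) + 1), lt_min hc (by linarith), min_le_right _ _, fun p _ L hL K V hK hV => ?_⟩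
  set S : ℕ → Set (Fin (k + 1) → ℕ) := fun s =>
    {x | (∀ i, 1 ≤ x i) ∧ ¬ StrongFour (V s) (fun i => L s (x i : PadicAlgCl (p s)))} with hS
  have hcnt : ∀ s : ℕ, ∀ ε : ℝ, 0 < ε → ∃ C' : ℝ, ∀ X : ℝ, 1 ≤ X → {x | x ∈ S s ∧ ht x ≤ X}.Finite ∧
      ({x | x ∈ S s ∧ ht x ≤ X}.ncard : ℝ) ≤ C' * X ^ ((k : ℝ) + 1 - min c ((k : ℝ) + 1) + ε) := by
    intro s ε hε
    refine ⟨|C| * p s, fun X hX => ?_⟩
    have hX0 : 0 < X := by linarith
    have hfl : 1 ≤ ⌊X⌋₊ := Nat.le_floor (by exact_mod_cast hX)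
    have hfl1 : (1 : ℝ) ≤ (⌊X⌋₊ : ℝ) := by exact_mod_cast hfl
    obtain ⟨B, hB, hgood⟩ := hC (p s) (L s) (hL s) (K s) (hK s).1 (hK s).2 (V s) (hV s).1 (hV s).2 ⌊X⌋₊ hfl
    have hsub : {x | x ∈ S s ∧ ht x ≤ X} ⊆ (B : Set (Fin (k + 1) → ℕ)) := by
      rintro x ⟨⟨h1, h2⟩, h3⟩
      by_contra hx
      refine h2 (hgood x (fun i => ⟨h1 i, Nat.le_floor ?_⟩) hx)
      have h5 : (x i : ℝ) ≤ (top x : ℝ) := by exact_mod_cast le_top x i
      exact h5.trans ((le_max_right _ _).trans h3)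
    refine ⟨(Finset.finite_toSet B).subset hsub, ?_⟩
    have h4 := Set.ncard_le_ncard hsub (Finset.finite_toSet B)
    rw [Set.ncard_coe_finset] at h4
    refine ((Nat.cast_le (α := ℝ)).2 h4).trans (hB.trans ?_)
    refine mul_le_mul (mul_le_mul_of_nonneg_right (le_abs_self C) (Nat.cast_nonneg _)) ?_ (by positivity) (by positivity)
    have hmin := min_le_left c ((k : ℝ) + 1)
    calc (⌊X⌋₊ : ℝ) ^ (((k + 1 : ℕ) : ℝ) - c)
        ≤ (⌊X⌋₊ : ℝ) ^ ((k : ℝ) + 1 - min c ((k : ℝ) + 1)) := by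
          apply Real.rpow_le_rpow_of_exponent_le hfl1
          push_cast
          linarith
      _ ≤ X ^ ((k : ℝ) + 1 - min c ((k : ℝ) + 1)) :=
          Real.rpow_le_rpow (by positivity) (Nat.floor_le hX0.le) hs0
      _ ≤ X ^ ((k : ℝ) + 1 - min c ((k : ℝ) + 1) + ε) := Real.rpow_le_rpow_of_exponent_le hX (by linarith)
  refine ⟨?_, fun M _ φ σ hσ => ?_⟩
  · have h1 := Pool.Agent.H2N.ae_family_space (volume : Measure (Fin k → ℝ)) (by rw [hfr]; omega)
      (fun x : Fin (k + 1) → ℕ => fun i : Fin k => (x i.castSucc : ℝ) / (x (Fin.last k) : ℝ)) ht one_le_ht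
      hs0 S hcnt
    rw [hfr] at h1
    filter_upwards [h1] with z hz σ hσ s
    refine (hz σ hσ s).subset ?_
    rintro x ⟨g1, g2, g3⟩
    refine ⟨⟨g1, g3⟩, ?_⟩
    rw [ht_eq g1, dist_pi_le_iff (by positivity)]
    exact g2
  · obtain ⟨E, hE1, hE2⟩ := Pool.Agent.H107.ME.dim_family φ ht one_le_ht hs0 hσ S hcnt
    refine ⟨E, hE1, fun z hz s => (hE2 z hz s).subset ?_⟩
    rintro x ⟨g1, g2, g3⟩
    refine ⟨⟨g1, g3⟩, ?_⟩
    rw [ht_eq g1]
    exact g2

end Pool.Agent.Results.MP_dd0d16_nt.TuplesNearDirections
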